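import Pool.Agent.Q7.KR.Est

open Complex Metric Set Filter Topology
open Pool.Agent.Q7.KR

namespace Pool.Agent.Results.MP_32da07_an.FirstEstimateFails

/-- `N(ζ)`: the number of `j` with `ζ_j = 0` and `D ∩ V_j = ∅`. -/
noncomputable def N {n : ℕ} (D : Set (Cn n)) (ζ : Cn n) : ℕ :=
  Nat.card {j : Fin n // ζ j = 0 ∧ ∀ z ∈ D, z j ≠ 0}

/-- **Disproof of Q1.** There are a bounded pseudoconvex Reinhardt domain `D ⊆ ℂ³` and a boundary
point `ζ₀` with `N(ζ₀) = 0` such that for every `z₀ ∈ D`, every neighbourhood `U` of `ζ₀` and every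
constant `C`, some `z ∈ D ∩ U` has `k_D(z₀, z) < -(1/2) log d_D(z) + C`. -/
theorem result : ∃ (D : Set (Cn 3)) (ζ₀ : Cn 3),
    IsReinhardtDomain D ∧ IsPseudoconvex D ∧ IsHolConvex D ∧ Bornology.IsBounded D ∧
    ζ₀ ∈ frontier D ∧ N D ζ₀ = 0 ∧
    ∀ z₀ ∈ D, ∀ U ∈ 𝓝 ζ₀, ∀ C : ℝ, ∃ z ∈ D ∩ U,
      kobayashi D z₀ z < -(1 / 2) * Real.log (infDist z (frontier D)) + C := by
  refine ⟨Dom, WithLp.toLp 2 ![1, 1, 1], reinhardt_dom, pseudoconvex_dom, holConvex_dom,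
    isBounded_dom, zeta_frontier, ?_, fun z₀ hz₀ U hU C => ?_⟩
  · rw [N, Nat.card_eq_zero]
    left
    rw [isEmpty_subtype]
    rintro j ⟨h, _⟩
    revert h
    fin_cases j <;> exact one_ne_zero
  · have h1 := (main_tendsto hz₀).eventually (eventually_lt_atBot C)
    have h2 := zs_tendsto.eventually hU
    obtain ⟨m, hm1, hm2⟩ := (h1.and h2).exists
    exact ⟨zs m, ⟨zs_mem m, hm2⟩, by linarith⟩

end Pool.Agent.Results.MP_32da07_an.FirstEstimateFails
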